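import Pool.Agent.H235R2.QLP.Final

/-!
# Binary codes: `R(δ)` is strictly below the bounds of McEliece, Rodemich, Rumsey and Welch

For every `0 < δ < 1/2` the asymptotic rate `R(δ)` of binary codes (linear or not) is strictly
smaller than the second linear programming bound `B(δ)`, and strictly smaller than every convex
combination of values of `B` at distances with average `δ`.
-/

open Filter

namespace Pool.Agent.Results.MP_0430e4_lc.BelowMRRW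

/-- `A(n,d)`: the largest size of a binary code of length `n` with minimum distance at least `d`. -/
noncomputable def A (n d : ℕ) : ℕ :=
  sSup {k | ∃ C : Finset (Fin n → Bool),
    (∀ x ∈ C, ∀ y ∈ C, x ≠ y → d ≤ hammingDist x y) ∧ C.card = k}

/-- The asymptotic rate `R(δ) = limsup (1/n) log₂ A(n, ⌈δ n⌉)`. -/
noncomputable def R (δ : ℝ) : ℝ :=
  limsup (fun n : ℕ => Real.logb 2 (A n ⌈δ * n⌉₊) / n) atTop

/-- The binary entropy function `H₂(x) = - x log₂ x - (1 - x) log₂ (1 - x)`. -/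
noncomputable def H (x : ℝ) : ℝ := -x * Real.logb 2 x - (1 - x) * Real.logb 2 (1 - x)

/-- `h(x) = H₂(1/2 - 1/2 √(1 - x))`. -/
noncomputable def h (x : ℝ) : ℝ := H (1 / 2 - 1 / 2 * √(1 - x))

/-- The second linear programming bound
`B(δ) = min over 0 < u ≤ 1 - 2 δ of 1 + h(u²) - h(u² + 2 δ u + 2 δ)`. -/
noncomputable def B (δ : ℝ) : ℝ :=
  sInf {b | ∃ u : ℝ, 0 < u ∧ u ≤ 1 - 2 * δ ∧ b = 1 + h (u ^ 2) - h (u ^ 2 + 2 * δ * u + 2 * δ)}

open Pool.Agent.H235R2.QLP in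
lemma H_eq (x : ℝ) : H x = Hq 2 x := by
  rw [Hq2_eq]
  unfold H Real.logb Real.negMulLog
  ring

open Pool.Agent.H235R2.QLP in
lemma bracket_eq (δ u : ℝ) :
    1 + h (u ^ 2) - h (u ^ 2 + 2 * δ * u + 2 * δ) = lp2 δ u := by
  unfold lp2 h h2
  rw [H_eq, H_eq]

open Pool.Agent.H235R2.QLP in
/-- the set of values defining `B` is nonempty and each value is attained by a one-letter state -/
lemma chord {r δ₁ δ₂ : ℝ} (h0 : 0 ≤ r) (h1 : r ≤ 1) (a1 : 0 < δ₁) (b1 : δ₁ < 1 / 2)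
    (a2 : 0 < δ₂) (b2 : δ₂ < 1 / 2) :
    Bq 2 (r * δ₁ + (1 - r) * δ₂) ≤ r * B δ₁ + (1 - r) * B δ₂ := by
  have hpos : 0 ≤ r * δ₁ + (1 - r) * δ₂ :=
    add_nonneg (mul_nonneg h0 a1.le) (mul_nonneg (by linarith) a2.le)
  have hne : ∀ δ : ℝ, δ < 1 / 2 → {b | ∃ u : ℝ, 0 < u ∧ u ≤ 1 - 2 * δ ∧
      b = 1 + h (u ^ 2) - h (u ^ 2 + 2 * δ * u + 2 * δ)}.Nonempty := fun δ hδ =>
    ⟨_, 1 - 2 * δ, by linarith, le_refl _, rfl⟩
  have key : ∀ x ∈ {b | ∃ u : ℝ, 0 < u ∧ u ≤ 1 - 2 * δ₁ ∧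
      b = 1 + h (u ^ 2) - h (u ^ 2 + 2 * δ₁ * u + 2 * δ₁)},
      ∀ y ∈ {b | ∃ u : ℝ, 0 < u ∧ u ≤ 1 - 2 * δ₂ ∧
      b = 1 + h (u ^ 2) - h (u ^ 2 + 2 * δ₂ * u + 2 * δ₂)},
      Bq 2 (r * δ₁ + (1 - r) * δ₂) ≤ r * x + (1 - r) * y := by
    rintro x ⟨u, hu0, hu1, rfl⟩ y ⟨v, hv0, hv1, rfl⟩
    rw [bracket_eq, bracket_eq]
    exact Bq_le_chord (by norm_num) h0 h1 hpos (ach_lp2 a1 hu0.le hu1) (ach_lp2 a2 hv0.le hv1)
  -- approximate both infima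
  refine le_of_forall_pos_lt_add fun ε hε => ?_
  obtain ⟨x, hx, hxε⟩ := exists_lt_of_csInf_lt (hne δ₁ b1) (lt_add_of_pos_right (B δ₁) hε)
  obtain ⟨y, hy, hyε⟩ := exists_lt_of_csInf_lt (hne δ₂ b2) (lt_add_of_pos_right (B δ₂) hε)
  have h3 := key x hx y hy
  rcases h0.eq_or_lt with h4 | h4
  · rw [← h4] at h3 ⊢
    linarith
  · have h5 : r * x < r * (B δ₁ + ε) := mul_lt_mul_of_pos_left hxε h4
    have h6 : (1 - r) * y ≤ (1 - r) * (B δ₂ + ε) := mul_le_mul_of_nonneg_left hyε.le (by linarith)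
    nlinarith

lemma A_bdd (n d : ℕ) : BddAbove {k | ∃ C : Finset (Fin n → Bool),
    (∀ x ∈ C, ∀ y ∈ C, x ≠ y → d ≤ hammingDist x y) ∧ C.card = k} := by
  refine ⟨Fintype.card (Fin n → Bool), ?_⟩
  rintro k ⟨C, -, rfl⟩
  exact Finset.card_le_univ C

lemma A_mem (n d : ℕ) : ∃ C : Finset (Fin n → Bool),
    (∀ x ∈ C, ∀ y ∈ C, x ≠ y → d ≤ hammingDist x y) ∧ C.card = A n d := by
  have : A n d ∈ {k | ∃ C : Finset (Fin n → Bool),
      (∀ x ∈ C, ∀ y ∈ C, x ≠ y → d ≤ hammingDist x y) ∧ C.card = k} :=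
    Nat.sSup_mem ⟨0, ∅, by simp, by simp⟩ (A_bdd n d)
  exact this

lemma one_le_A (n d : ℕ) : 1 ≤ A n d := by
  refine le_csSup (A_bdd n d) ⟨{fun _ => true}, ?_, by simp⟩
  intro x hx y hy hxy
  rw [Finset.mem_singleton] at hx hy
  exact absurd (hx.trans hy.symm) hxy

open Pool.Agent.H235R2.QLP in
/-- For all `0 < δ < 1/2`: `R(δ) < B(δ)`; more generally `R(δ)` is strictly smaller than
`r B(δ₁) + (1-r) B(δ₂)` whenever `δ = r δ₁ + (1-r) δ₂`, `0 ≤ r ≤ 1`, `0 < δ₁, δ₂ < 1/2`. -/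
theorem result (δ : ℝ) (h0 : 0 < δ) (h1 : δ < 1 / 2) :
    R δ < B δ ∧ ∀ r δ₁ δ₂ : ℝ, 0 ≤ r → r ≤ 1 → 0 < δ₁ → δ₁ < 1 / 2 → 0 < δ₂ → δ₂ < 1 / 2 →
      r * δ₁ + (1 - r) * δ₂ = δ → R δ < r * B δ₁ + (1 - r) * B δ₂ := by
  have hR : ∃ β : ℝ, R δ ≤ β ∧ β < Bq 2 δ := by
    obtain ⟨β, hβ0, hβ, n0, hn0⟩ := codes Bool (by simp) h0 (by
      rw [Fintype.card_bool]; norm_num; linarith)
    rw [Fintype.card_bool] at hβ
    refine ⟨β, ?_, hβ⟩
    unfold R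
    refine limsup_le_of_le ?_ ?_
    · refine ⟨0, ?_⟩
      intro a ha
      rw [eventually_map] at ha
      obtain ⟨n, hn⟩ := ha.exists
      refine le_trans ?_ hn
      have : (1 : ℝ) ≤ A n ⌈δ * n⌉₊ := by exact_mod_cast one_le_A n _
      exact div_nonneg (Real.logb_nonneg (by norm_num) this) (Nat.cast_nonneg n)
    · filter_upwards [eventually_ge_atTop (max n0 1)] with n hn
      have hnn : n0 ≤ n := le_trans (le_max_left _ _) hn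
      have hn1 : 1 ≤ n := le_trans (le_max_right _ _) hn
      have hnR : (0 : ℝ) < n := by exact_mod_cast hn1
      obtain ⟨C, hC, hcard⟩ := A_mem n ⌈δ * n⌉₊
      have h2 := hn0 n hnn C (fun x hx y hy hxy => by
        refine le_trans (Nat.le_ceil (δ * n)) ?_
        exact_mod_cast hC x hx y hy hxy)
      rw [hcard, Fintype.card_bool] at h2
      have hA : (0 : ℝ) < A n ⌈δ * n⌉₊ := by exact_mod_cast one_le_A n _
      rw [div_le_iff₀ hnR, Real.logb_le_iff_le_rpow (by norm_num) hA]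
      exact_mod_cast h2
  obtain ⟨β, hRβ, hβ⟩ := hR
  have hch : ∀ r δ₁ δ₂ : ℝ, 0 ≤ r → r ≤ 1 → 0 < δ₁ → δ₁ < 1 / 2 → 0 < δ₂ → δ₂ < 1 / 2 →
      r * δ₁ + (1 - r) * δ₂ = δ → R δ < r * B δ₁ + (1 - r) * B δ₂ := by
    intro r δ₁ δ₂ r0 r1 a1 b1 a2 b2 he
    have := chord r0 r1 a1 b1 a2 b2
    rw [he] at this
    linarith
  refine ⟨?_, hch⟩
  have := hch 1 δ δ zero_le_one le_rfl h0 h1 h0 h1 (by ring)
  linarith

end Pool.Agent.Results.MP_0430e4_lc.BelowMRRW
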